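import Pool.Agent.Helper30.ML.Goals

/-!
# Project ML (MP_bf413e_co): packet LK
-/

set_option autoImplicit false

namespace Pool.Agent.Helper45.ML

open scoped Classical
open Finset
open Pool.Agent.Helper30.ML
open Pool.Agent.Helper94.KC (dR Even2)

theorem pair_eq {V : Type} {v x y : V} (hx : x ≠ v) (h : ({v, x} : Finset V) = {v, y}) : x = y := by
  have h1 : x ∈ ({v, y} : Finset V) := by
    rw [← h]
    simp
  rw [mem_insert, mem_singleton] at h1
  rcases h1 with h1 | h1
  · exact absurd h1 hx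
  · exact h1

theorem mem_eG {V : Type} [Fintype V] {G : SimpleGraph V} {v x : V} :
    ({v, x} : Finset V) ∈ eG G ↔ G.Adj v x := by
  unfold eG
  rw [mem_filter]
  constructor
  · rintro ⟨-, a, b, hab, he⟩
    have hne := hab.ne
    have ha : a ∈ ({v, x} : Finset V) := by rw [he]; simp
    have hb : b ∈ ({v, x} : Finset V) := by rw [he]; simp
    rw [mem_insert, mem_singleton] at ha hb
    rcases ha with rfl | rfl <;> rcases hb with rfl | rfl
    · exact absurd rfl hne
    · exact hab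
    · exact hab.symm
    · exact absurd rfl hne
  · intro h
    exact ⟨mem_univ _, v, x, h, rfl⟩

theorem mem_eG' {V : Type} [Fintype V] {G : SimpleGraph V} {v : V} {e : Finset V} (he : e ∈ eG G)
    (hv : v ∈ e) : ∃ x, G.Adj v x ∧ e = {v, x} := by
  unfold eG at he
  rw [mem_filter] at he
  obtain ⟨-, a, b, hab, rfl⟩ := he
  rw [mem_insert, mem_singleton] at hv
  rcases hv with rfl | rfl
  · exact ⟨b, hab, rfl⟩
  · exact ⟨a, hab.symm, pair_comm _ _⟩

/-- The number of the edges of an even set at `v` is even. -/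
theorem even_nb {V : Type} [Fintype V] {G : SimpleGraph V} {v : V} {z : Finset (Finset V)}
    (hz : z ⊆ eG G) (he : Even2 z) (N : Finset V) (hN : ∀ x, x ∈ N ↔ G.Adj v x) :
    Even (N.filter (fun x => {v, x} ∈ z)).card := by
  have h := he v
  have h1 : (z.filter (fun e => v ∈ e)) =
      (N.filter (fun x => {v, x} ∈ z)).image (fun x => ({v, x} : Finset V)) := by
    ext e
    rw [mem_filter, mem_image]
    constructor
    · rintro ⟨h1, h2⟩
      obtain ⟨x, hx, rfl⟩ := mem_eG' (hz h1) h2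
      exact ⟨x, mem_filter.mpr ⟨(hN x).mpr hx, h1⟩, rfl⟩
    · rintro ⟨x, hx, rfl⟩
      rw [mem_filter] at hx
      exact ⟨hx.2, by simp⟩
  rw [h1, card_image_of_injOn] at h
  · exact h
  · intro x hx y hy hxy
    have hx' := mem_filter.mp (mem_coe.mp hx)
    exact pair_eq ((hN x).mp hx'.1).ne.symm hxy

theorem pLK (hSD : StmtSD) (hLA : StmtLA) (hLB : StmtLB) (hLC : StmtLC)
    (hLD : StmtLD) : StmtLK := by
  intro V _ G v hM h5 hc
  set N : Finset V := univ.filter (fun y => G.Adj v y) with hNdef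
  have hNm : ∀ x, x ∈ N ↔ G.Adj v x := fun x => by rw [hNdef, mem_filter]; simp
  have hN5 : N.card = 5 := h5
  have hvN : v ∉ N := fun h => ((hNm v).mp h).ne rfl
  clear_value N
  have hG0 : G ∈ {G' : SimpleGraph V | G ≤ G' ∧ Mac G' ∧
      ∀ a b, G'.Adj a b → G.Adj a b ∨ (a ∈ N ∧ b ∈ N)} := ⟨le_rfl, hM, fun a b h => Or.inl h⟩
  obtain ⟨G', hGG', hmax⟩ := (Set.toFinite _).exists_le_maximal hG0
  obtain ⟨hG1, hG2, hG3⟩ := hmax.1
  have hadj : ∀ y, G'.Adj v y ↔ G.Adj v y := by
    intro y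
    constructor
    · intro h
      rcases hG3 v y h with h | ⟨h, -⟩
      · exact h
      · exact absurd h hvN
    · intro h
      exact hG1 h
  have hN' : ∀ x, x ∈ N ↔ G'.Adj v x := fun x => by rw [hNm, hadj]
  have hadd : ∀ x ∈ N, ∀ y ∈ N, x ≠ y → Mac (adE G' x y) → G'.Adj x y := by
    intro x hx y hy hxy hmac
    have h1 : G' ≤ adE G' x y := fun a b h => Or.inl h
    have h2 : adE G' x y ∈ {G' : SimpleGraph V | G ≤ G' ∧ Mac G' ∧
        ∀ a b, G'.Adj a b → G.Adj a b ∨ (a ∈ N ∧ b ∈ N)} := by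
      refine ⟨hG1.trans h1, hmac, ?_⟩
      rintro a b (h | ⟨-, ⟨rfl, rfl⟩ | ⟨rfl, rfl⟩⟩)
      · exact hG3 a b h
      · exact Or.inr ⟨hx, hy⟩
      · exact Or.inr ⟨hy, hx⟩
    have h3 := hmax.2 h2 h1
    exact h3 (Or.inr ⟨hxy, Or.inl ⟨rfl, rfl⟩⟩)
  obtain ⟨m, f, hf⟩ := hG2
  -- (1)
  have k1 : ∀ i, ∀ x ∈ N, ∀ y ∈ N, x ≠ y → {v, x} ∈ f i → {v, y} ∈ f i → G'.Adj x y := by
    intro i x hx y hy hxy h1 h2
    by_contra hcon
    exact hcon (hadd x hx y hy hxy (hLA V G' m f i v x y hf hxy h1 h2 hcon))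
  -- (2)
  have k2 : ∀ x ∈ N, ∀ y ∈ N, x ≠ y → (univ.filter (fun i => {v, x} ∈ f i)).card ≤ 1 →
      (univ.filter (fun i => {v, y} ∈ f i)).card ≤ 1 → G'.Adj x y := by
    intro x hx y hy hxy h1 h2
    by_contra hcon
    exact hcon (hadd x hx y hy hxy (hLB V G' m f v x y hf hxy ((hN' x).mp hx) ((hN' y).mp hy)
      hcon h1 h2))
  -- (3)
  set F : Fin m → Finset V := fun i => N.filter (fun x => {v, x} ∈ f i) with hF
  have hFm : ∀ i x, x ∈ F i ↔ x ∈ N ∧ {v, x} ∈ f i := fun i x => by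
    simp only [hF, mem_filter]
  have k3 : ∀ i, (F i).card = 0 ∨ (F i).card = 2 := by
    intro i
    have he : Even (F i).card := even_nb (hf.sub i) (hf.even i) N hN'
    have hle : (F i).card ≤ 3 := by
      by_contra hcon
      push Not at hcon
      obtain ⟨S, hS1, hS2⟩ := exists_subset_card_eq (show 4 ≤ (F i).card by omega)
      obtain ⟨e⟩ : Nonempty (Fin 4 ≃ S) := ⟨(Finset.equivFinOfCardEq hS2).symm⟩
      have hvS : ∀ a : Fin 4, G'.Adj v (e a) := fun a =>
        (hN' _).mp ((hFm i _).mp (hS1 (e a).2)).1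
      have hSS : ∀ a b : Fin 4, a ≠ b → G'.Adj (e a) (e b) := by
        intro a b hab
        have ha := (hFm i _).mp (hS1 (e a).2)
        have hb := (hFm i _).mp (hS1 (e b).2)
        exact k1 i _ ha.1 _ hb.1 (fun h => hab (e.injective (Subtype.ext h))) ha.2 hb.2
      apply hSD.2.2 V G' (Fin.cons v (fun a => (e a : V))) ⟨m, f, hf⟩
      intro a b
      refine Fin.cases ?_ (fun a => ?_) a
      · refine Fin.cases ?_ (fun b => ?_) b
        · intro h
          exact absurd rfl h
        · intro _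
          exact hvS b
      · refine Fin.cases ?_ (fun b => ?_) b
        · intro _
          exact (hvS a).symm
        · intro h
          exact hSS a b (fun h' => h (by rw [h']))
    obtain ⟨c, hc⟩ := he
    omega
  -- the link graph
  obtain ⟨L, hL⟩ : ∃ L : V → V → Prop, ∀ x y, L x y ↔
      (x ≠ y ∧ ∃ i, {v, x} ∈ f i ∧ {v, y} ∈ f i) := ⟨_, fun _ _ => Iff.rfl⟩
  have hconn : ∀ C ⊆ N, C.Nonempty → C ≠ N → ∃ x ∈ C, ∃ y ∈ N \ C, L x y := by
    intro C hC hC1 hC2
    obtain ⟨x, hx⟩ := hC1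
    obtain ⟨y, hy1, hy2⟩ : ∃ y ∈ N, y ∉ C := by
      by_contra hcon
      push Not at hcon
      exact hC2 (Subset.antisymm hC hcon)
    have hreach : (del G' v).Reachable x y := by
      have h1 := hc x y ((hNm x).mp (hC hx)) ((hNm y).mp hy1)
      apply h1.mono
      intro a b hab
      exact ⟨hG1 hab.1, hab.2⟩
    obtain ⟨i, hi⟩ := hLC V G' m f v x y C hf ((hN' x).mp (hC hx)) ((hN' y).mp hy1) hx hy2 hreach
    have h1 : (F i).card = (C.filter (fun c => {v, c} ∈ f i)).card +
        ((N \ C).filter (fun c => {v, c} ∈ f i)).card := by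
      rw [← card_union_of_disjoint]
      · congr 1
        ext c
        rw [hFm, mem_union, mem_filter, mem_filter, mem_sdiff]
        constructor
        · rintro ⟨h1, h2⟩
          by_cases h : c ∈ C
          · exact Or.inl ⟨h, h2⟩
          · exact Or.inr ⟨⟨h1, h⟩, h2⟩
        · rintro (⟨h1, h2⟩ | ⟨⟨h1, -⟩, h2⟩)
          · exact ⟨hC h1, h2⟩
          · exact ⟨h1, h2⟩
      · rw [disjoint_left]
        intro c h1 h2
        rw [mem_filter] at h1 h2
        exact (mem_sdiff.mp h2.1).2 h1.1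
    obtain ⟨d, hd⟩ := hi
    have h2 : 0 < (C.filter (fun c => {v, c} ∈ f i)).card := by omega
    have h3 : 0 < ((N \ C).filter (fun c => {v, c} ∈ f i)).card := by
      rcases k3 i with h | h <;> omega
    obtain ⟨x', hx'⟩ := card_pos.mp h2
    obtain ⟨y', hy'⟩ := card_pos.mp h3
    rw [mem_filter] at hx' hy'
    refine ⟨x', hx'.1, y', hy'.1, (hL _ _).mpr ⟨?_, i, hx'.2, hy'.2⟩⟩
    rintro rfl
    exact (mem_sdiff.mp hy'.1).2 hx'.1
  have hdeg : ∀ x ∈ N, (N.filter (fun y => L x y)).card ≤ 2 := by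
    intro x hx
    have h1 : (N.filter (fun y => L x y)) ⊆
        (univ.filter (fun i => {v, x} ∈ f i)).biUnion (fun i => (F i).erase x) := by
      intro y hy
      rw [mem_filter, hL] at hy
      obtain ⟨hy1, hy2, i, hi1, hi2⟩ := hy
      rw [mem_biUnion]
      exact ⟨i, mem_filter.mpr ⟨mem_univ _, hi1⟩, mem_erase.mpr ⟨hy2.symm, (hFm i y).mpr ⟨hy1, hi2⟩⟩⟩
    refine (card_le_card h1).trans (card_biUnion_le.trans ?_)
    calc ∑ i ∈ univ.filter (fun i => {v, x} ∈ f i), ((F i).erase x).card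
        ≤ ∑ i ∈ univ.filter (fun i => {v, x} ∈ f i), 1 := by
          apply sum_le_sum
          intro i hi
          rw [mem_filter] at hi
          have hxi : x ∈ F i := (hFm i x).mpr ⟨hx, hi.2⟩
          rw [card_erase_of_mem hxi]
          rcases k3 i with h | h <;> omega
      _ = (univ.filter (fun i => {v, x} ∈ f i)).card := by rw [card_eq_sum_ones]
      _ ≤ 2 := hf.two _
  -- (6)
  have k6 : ∀ x ∈ N, (N.filter (fun y => L x y)).card ≤ 1 →
      (univ.filter (fun i => {v, x} ∈ f i)).card ≤ 1 := by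
    intro x hx hLx
    by_contra hcon
    push Not at hcon
    obtain ⟨i, hi, j, hj, hij⟩ := one_lt_card.mp hcon
    rw [mem_filter] at hi hj
    have hother : ∀ l, {v, x} ∈ f l → ∃ y, y ≠ x ∧ F l = {x, y} := by
      intro l hl
      have hxl : x ∈ F l := (hFm l x).mpr ⟨hx, hl⟩
      have h2 : (F l).card = 2 := by
        rcases k3 l with h | h
        · rw [card_eq_zero] at h
          rw [h] at hxl
          simp at hxl
        · exact h
      obtain ⟨a, b, hab, hF2⟩ := card_eq_two.mp h2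
      rw [hF2, mem_insert, mem_singleton] at hxl
      rcases hxl with rfl | rfl
      · exact ⟨b, hab.symm, hF2⟩
      · exact ⟨a, hab, by rw [hF2, pair_comm]⟩
    obtain ⟨y, hyx, hFi⟩ := hother i hi.2
    obtain ⟨y', hyx', hFj⟩ := hother j hj.2
    have hyi : y ∈ F i := by rw [hFi]; simp
    have hyj : y' ∈ F j := by rw [hFj]; simp
    rw [hFm] at hyi hyj
    have hyy : y = y' := by
      apply card_le_one.mp hLx
      · rw [mem_filter, hL]
        exact ⟨hyi.1, hyx.symm, i, hi.2, hyi.2⟩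
      · rw [mem_filter, hL]
        exact ⟨hyj.1, hyx'.symm, j, hj.2, hyj.2⟩
    subst hyy
    have honly : ∀ a, {v, a} ∈ f i → {v, a} ∈ f j → ∀ l, {v, a} ∈ f l → l = i ∨ l = j := by
      intro a h1 h2 l hl
      by_contra hcon2
      push Not at hcon2
      have h3 : ({i, j, l} : Finset (Fin m)) ⊆ univ.filter (fun i => {v, a} ∈ f i) := by
        intro b hb
        rw [mem_insert, mem_insert, mem_singleton] at hb
        rw [mem_filter]
        rcases hb with rfl | rfl | rfl
        · exact ⟨mem_univ _, h1⟩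
        · exact ⟨mem_univ _, h2⟩
        · exact ⟨mem_univ _, hl⟩
      have h4 := card_le_card h3
      have h5 := hf.two {v, a}
      have h6 : ({i, j, l} : Finset (Fin m)).card = 3 := by
        rw [card_eq_three]
        exact ⟨i, j, l, hij, hcon2.1.symm, hcon2.2.symm, rfl⟩
      omega
    obtain ⟨a, ha, b, hb, hab⟩ := hconn {x, y} (by
      intro a ha
      rw [mem_insert, mem_singleton] at ha
      rcases ha with rfl | rfl
      · exact hx
      · exact hyi.1) ⟨x, by simp⟩ (by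
      intro h
      have h1 : ({x, y} : Finset V).card ≤ 2 := card_le_two
      rw [h, hN5] at h1
      omega)
    obtain ⟨-, l, hl1, hl2⟩ := (hL a b).mp hab
    have hl : l = i ∨ l = j := by
      rw [mem_insert, mem_singleton] at ha
      rcases ha with rfl | rfl
      · exact honly a hi.2 hj.2 l hl1
      · exact honly a hyi.2 hyj.2 l hl1
    rw [mem_sdiff] at hb
    apply hb.2
    rcases hl with rfl | rfl
    · rw [← hFi, hFm]
      exact ⟨hb.1, hl2⟩
    · rw [← hFj, hFm]
      exact ⟨hb.1, hl2⟩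
  obtain ⟨w, hw1, hw2, hw3⟩ := hLD V N L (fun x y => G'.Adj x y) hN5
    (fun x y h => by
      rw [hL] at h ⊢
      exact ⟨h.1.symm, h.2.imp fun i hi => ⟨hi.2, hi.1⟩⟩) (fun x y h => h.symm)
    (fun x h => ((hL x x).mp h).1 rfl) hdeg hconn
    (fun x hx y hy h => by
      obtain ⟨hxy, i, h1, h2⟩ := (hL x y).mp h
      exact k1 i x hx y hy hxy h1 h2)
    (fun x hx y hy hxy h1 h2 => k2 x hx y hy hxy (k6 x hx h1) (k6 y hy h2))
  have himg : univ.image w = N := by
    apply eq_of_subset_of_card_le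
    · intro y hy
      rw [mem_image] at hy
      obtain ⟨i, -, rfl⟩ := hy
      exact hw2 i
    · rw [hN5, card_image_of_injective _ hw1]
      simp
  refine ⟨w, G', hw1, ?_, hG1, ⟨m, f, hf⟩, hw3, hadj⟩
  intro y
  rw [← hNm, ← himg, mem_image]
  simp

end Pool.Agent.Helper45.ML
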